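import Pool.Agent.Helper73.FU.Stmts

/-!
# Solutions and densities (project MP_a2630c_FU, row S_fea)
-/

open MeasureTheory Set Metric Real Filter Topology
open scoped RealInnerProductSpace ENNReal
open Pool.Agent.Helper16.Buoy (E cap IsEllipsoid Homothetic buoyancyBody)
open Pool.Agent.Helper73.HV (supp)
open Pool.Agent.Helper73.LR (CB vol GG Sol aff)
open Pool.Agent.Helper73.SY (CS)

namespace Pool.Agent.Helper61.FU

open Pool.Agent.Helper73.FU Pool.Agent.Helper65.LR

variable {n : ℕ} {K : Set (E n)} {δ lam : ℝ} {ρ : E n → ℝ}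

lemma volume_plane {a : E n} (ha : a ≠ 0) (t : ℝ) : volume {x : E n | inner ℝ a x = t} = 0 := by
  by_cases hne : ({x : E n | inner ℝ a x = t}).Nonempty
  · obtain ⟨p, hp⟩ := hne
    have hp' : inner ℝ a p = t := hp
    have h1 : {x : E n | inner ℝ a x = t} = (AffineSubspace.mk' p (ℝ ∙ a)ᗮ : Set (E n)) := by
      ext x
      simp only [mem_ofPred_eq, SetLike.mem_coe, AffineSubspace.mem_mk', vsub_eq_sub,
        Submodule.mem_orthogonal_singleton_iff_inner_right, inner_sub_right, sub_eq_zero, hp']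
    rw [h1]
    apply Measure.addHaar_affineSubspace
    intro htop
    have h2 : p + a ∈ AffineSubspace.mk' p (ℝ ∙ a)ᗮ := by rw [htop]; trivial
    rw [AffineSubspace.mem_mk', vsub_eq_sub, add_sub_cancel_left,
      Submodule.mem_orthogonal_singleton_iff_inner_right, real_inner_self_eq_norm_sq] at h2
    exact ha (norm_eq_zero.mp (pow_eq_zero_iff (by norm_num) |>.mp h2))
  · rw [not_nonempty_iff_eq_empty] at hne
    rw [hne, measure_empty]

lemma int_smul (hK : IsCompact K) (hm : AEStronglyMeasurable ρ (volume.restrict K))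
    (h0 : ∀ x, 0 ≤ ρ x) (h1 : ∀ x, ρ x ≤ 1) : IntegrableOn (fun x => ρ x • x) K := by
  obtain ⟨C, hC⟩ := hK.isBounded.exists_norm_le
  have : IsFiniteMeasure (volume.restrict K) := ⟨by simpa using hK.measure_lt_top⟩
  refine Integrable.of_bound (hm.smul continuous_id.aestronglyMeasurable) C ?_
  refine (ae_restrict_iff' hK.measurableSet).2 (Eventually.of_forall fun x hx => ?_)
  rw [norm_smul, Real.norm_eq_abs, abs_of_nonneg (h0 x)]
  have := hC x hx
  nlinarith [norm_nonneg x, h0 x, h1 x]

lemma int_rho (hK : IsCompact K) (hm : AEStronglyMeasurable ρ (volume.restrict K))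
    (h0 : ∀ x, 0 ≤ ρ x) (h1 : ∀ x, ρ x ≤ 1) : IntegrableOn ρ K := by
  have : IsFiniteMeasure (volume.restrict K) := ⟨by simpa using hK.measure_lt_top⟩
  refine Integrable.of_bound hm 1 ?_
  refine Eventually.of_forall fun x => ?_
  rw [Real.norm_eq_abs, abs_of_nonneg (h0 x)]
  exact h1 x

lemma inner_int (hK : IsCompact K) (hm : AEStronglyMeasurable ρ (volume.restrict K))
    (h0 : ∀ x, 0 ≤ ρ x) (h1 : ∀ x, ρ x ≤ 1) (u : E n) :
    inner ℝ u (∫ x in K, ρ x • x) = ∫ x in K, ρ x * inner ℝ u x := by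
  rw [← integral_inner (int_smul hK hm h0 h1) u]
  congr 1
  funext x
  rw [inner_smul_right]

/-- Bathtub: the defect is the integral of a nonnegative function. -/
lemma bath (hK : IsCompact K) (hm : AEStronglyMeasurable ρ (volume.restrict K))
    (h0 : ∀ x, 0 ≤ ρ x) (h1 : ∀ x, ρ x ≤ 1) (hδ : ∫ x in K, ρ x = δ) (u : E n) (τ : ℝ) :
    IntegrableOn (fun x => max (inner ℝ u x - τ) 0 - ρ x * (inner ℝ u x - τ)) K ∧
    GG K u τ + δ * τ - inner ℝ u (∫ x in K, ρ x • x) =
      ∫ x in K, (max (inner ℝ u x - τ) 0 - ρ x * (inner ℝ u x - τ)) := by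
  have hi1 : IntegrableOn (fun x : E n => max (inner ℝ u x - τ) 0) K := by
    apply ContinuousOn.integrableOn_compact hK
    fun_prop
  have hi2 : IntegrableOn (fun x : E n => ρ x * inner ℝ u x) K := by
    have := (int_smul hK hm h0 h1).const_inner (𝕜 := ℝ) u
    refine this.congr ?_
    refine Eventually.of_forall fun x => ?_
    simp only [inner_smul_right]
  have hi3 : IntegrableOn (fun x : E n => ρ x * τ) K := (int_rho hK hm h0 h1).mul_const τ
  have hi4 : IntegrableOn (fun x : E n => ρ x * (inner ℝ u x - τ)) K := by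
    have := hi2.sub hi3
    refine this.congr ?_
    refine Eventually.of_forall fun x => ?_
    simp only [Pi.sub_apply]
    ring
  refine ⟨hi1.sub hi4, ?_⟩
  rw [integral_sub hi1 hi4, inner_int hK hm h0 h1]
  have e : ∫ x in K, ρ x * (inner ℝ u x - τ) = (∫ x in K, ρ x * inner ℝ u x) - δ * τ := by
    rw [← hδ, ← integral_mul_const, ← integral_sub hi2 hi3]
    congr 1
    funext x
    ring
  rw [e]
  unfold Pool.Agent.Helper73.LR.GG
  ring

lemma bath_nonneg (h0 : ∀ x, 0 ≤ ρ x) (h1 : ∀ x, ρ x ≤ 1) (u : E n) (τ : ℝ) (x : E n) :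
    0 ≤ max (inner ℝ u x - τ) 0 - ρ x * (inner ℝ u x - τ) := by
  rcases le_total 0 (inner ℝ u x - τ) with h | h
  · rw [max_eq_left h]
    nlinarith [h0 x, h1 x]
  · rw [max_eq_right h]
    nlinarith [h0 x, h1 x]

theorem s_fea : S_fea := by
  intro n K δ lam hCS ρ hm h0 h1 hδ
  have hK := hCS.cb.comp
  have hne : K.Nonempty := hCS.cb.int.mono interior_subset
  have hlam := hCS.lpos
  set z : E n := lam⁻¹ • ∫ x in K, ρ x • x with hz
  have hzint : ∫ x in K, ρ x • x = lam • z := by
    rw [hz, smul_smul, mul_inv_cancel₀ hlam.ne', one_smul]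
  have hle : ∀ u : E n, inner ℝ u z ≤ supp K u := by
    intro u
    by_cases hu : u = 0
    · subst hu
      obtain ⟨x, hx⟩ := hne
      have := le_supp hK hx (0 : E n)
      simpa using this
    · obtain ⟨τ, _, hτ⟩ := hCS.eq u hu
      obtain ⟨_, hb⟩ := bath hK hm h0 h1 hδ u τ
      have hnn : 0 ≤ ∫ x in K, (max (inner ℝ u x - τ) 0 - ρ x * (inner ℝ u x - τ)) :=
        integral_nonneg fun x => bath_nonneg h0 h1 u τ x
      rw [← hb, hτ, hzint, inner_smul_right] at hnn
      have : 0 ≤ lam * (supp K u - inner ℝ u z) := by linarith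
      have := nonneg_of_mul_nonneg_right this hlam
      linarith
  refine ⟨mem_of_supp hCS.cb.conv hK hle hne, fun hzi => ?_⟩
  -- a support direction
  obtain ⟨f, hf⟩ := geometric_hahn_banach_open_point hCS.cb.conv.interior isOpen_interior hzi
  set u : E n := (InnerProductSpace.toDual ℝ (E n)).symm f with hu
  have hfu : ∀ y, inner ℝ u y = f y := fun y => by
    rw [hu, InnerProductSpace.toDual_symm_apply]
  have hu0 : u ≠ 0 := by
    intro h
    obtain ⟨y, hy⟩ := hCS.cb.int
    have h2 := hf y hy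
    rw [← hfu, ← hfu, h] at h2
    simp at h2
  have hKle : ∀ y ∈ K, inner ℝ u y ≤ inner ℝ u z := by
    have hcl : closure (interior K) = K := by
      rw [hCS.cb.conv.closure_interior_eq_closure_of_nonempty_interior hCS.cb.int,
        hK.isClosed.closure_eq]
    intro y hy
    rw [← hcl] at hy
    have hclosed : IsClosed {y : E n | inner ℝ u y ≤ inner ℝ u z} :=
      isClosed_le (by fun_prop) continuous_const
    refine hclosed.closure_subset_iff.2 ?_ hy
    intro y hy
    have := hf y hy
    rw [← hfu, ← hfu] at this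
    exact this.le
  have heq : inner ℝ u z = supp K u := by
    refine le_antisymm (hle u) ?_
    obtain ⟨y, hy, hyu⟩ := (supp_greatest hK hne u).1
    have hyu' : inner ℝ u y = supp K u := hyu
    rw [← hyu']
    exact hKle y hy
  obtain ⟨τ, _, hτ⟩ := hCS.eq u hu0
  obtain ⟨hi, hb⟩ := bath hK hm h0 h1 hδ u τ
  rw [hτ, hzint, inner_smul_right, heq, sub_self] at hb
  have hzero := (integral_eq_zero_iff_of_nonneg (fun x => bath_nonneg h0 h1 u τ x) hi).1 hb.symm
  have hpl : ∀ᵐ x : E n ∂(volume.restrict K), inner ℝ u x ≠ τ := by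
    refine ae_restrict_of_ae ?_
    rw [ae_iff]
    simpa using volume_plane hu0 τ
  filter_upwards [hzero, hpl] with x hx hx2
  simp only [Pi.zero_apply] at hx
  rcases lt_or_gt_of_ne hx2 with h | h
  · left
    rw [max_eq_right (by linarith)] at hx
    have : ρ x * (inner ℝ u x - τ) = 0 := by linarith
    rcases mul_eq_zero.1 this with h3 | h3
    · exact h3
    · linarith
  · right
    rw [max_eq_left (by linarith)] at hx
    have : (1 - ρ x) * (inner ℝ u x - τ) = 0 := by linarith
    rcases mul_eq_zero.1 this with h3 | h3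
    · linarith
    · linarith

end Pool.Agent.Helper61.FU
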