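import Mathlib

open MeasureTheory Set Real
open scoped ENNReal

namespace Pool.Agent.Helper61.FU

/-- The arcsine law. -/
lemma arcsine (g : ℝ) (hg : 0 < g) (f : ℝ → ℝ≥0∞) :
    ∫⁻ φ in Ioo (0 : ℝ) π, f (g * cos φ) =
      ∫⁻ s in Ioo (-g) g, f s * ENNReal.ofReal (1 / √(g ^ 2 - s ^ 2)) := by
  have himg : (fun φ : ℝ => g * cos φ) '' Ioo 0 π = Ioo (-g) g := by
    ext s
    constructor
    · rintro ⟨φ, ⟨h0, h1⟩, rfl⟩
      have hlt : cos φ < 1 := by
        have := Real.cos_lt_cos_of_nonneg_of_le_pi le_rfl h1.le h0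
        simpa using this
      have hgt : -1 < cos φ := by
        have := Real.cos_lt_cos_of_nonneg_of_le_pi h0.le le_rfl h1
        simpa using this
      constructor
      · simp only []
        nlinarith
      · simp only []
        nlinarith
    · rintro ⟨h0, h1⟩
      have hs1 : s / g < 1 := by rw [div_lt_one hg]; exact h1
      have hs0 : -1 < s / g := by
        rw [lt_div_iff₀ hg]; linarith
      refine ⟨arccos (s / g), ⟨?_, ?_⟩, ?_⟩
      · exact Real.arccos_pos.2 hs1
      · have : arccos (s / g) < arccos (-1) := by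
          exact Real.strictAntiOn_arccos ⟨le_rfl, by norm_num⟩ ⟨hs0.le, hs1.le⟩ hs0
        simpa using this
      · simp only []
        rw [Real.cos_arccos hs0.le hs1.le]
        field_simp
  have hinj : InjOn (fun φ : ℝ => g * cos φ) (Ioo 0 π) := by
    intro a ha b hb hab
    have hab' : cos a = cos b := by
      have : g * cos a = g * cos b := hab
      exact mul_left_cancel₀ hg.ne' this
    exact Real.injOn_cos ⟨ha.1.le, ha.2.le⟩ ⟨hb.1.le, hb.2.le⟩ hab'
  have hder : ∀ φ ∈ Ioo (0 : ℝ) π,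
      HasDerivWithinAt (fun φ : ℝ => g * cos φ) (g * (-sin φ)) (Ioo 0 π) φ := by
    intro φ _
    exact ((Real.hasDerivAt_cos φ).const_mul g).hasDerivWithinAt
  have key := lintegral_image_eq_lintegral_abs_deriv_mul measurableSet_Ioo hder hinj
    (fun s => f s * ENNReal.ofReal (1 / √(g ^ 2 - s ^ 2)))
  rw [himg] at key
  rw [key]
  refine setLIntegral_congr_fun measurableSet_Ioo ?_
  intro φ hφ
  have hsin : 0 < sin φ := Real.sin_pos_of_pos_of_lt_pi hφ.1 hφ.2
  have h1 : |g * (-sin φ)| = g * sin φ := by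
    rw [abs_mul, abs_neg, abs_of_pos hg, abs_of_pos hsin]
  have h2 : √(g ^ 2 - (g * cos φ) ^ 2) = g * sin φ := by
    have : g ^ 2 - (g * cos φ) ^ 2 = (g * sin φ) ^ 2 := by
      have := Real.sin_sq_add_cos_sq φ
      nlinarith
    rw [this, Real.sqrt_sq (by positivity)]
  simp only [h1, h2]
  rw [mul_left_comm, ← ENNReal.ofReal_mul (by positivity)]
  have : g * sin φ * (1 / (g * sin φ)) = 1 := by
    field_simp
  rw [this]
  simp

lemma arcsine_one (g : ℝ) (hg : 0 < g) :
    ∫⁻ s in Ioo (-g) g, ENNReal.ofReal (1 / √(g ^ 2 - s ^ 2)) = ENNReal.ofReal π := by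
  have := arcsine g hg (fun _ => 1)
  simp only [one_mul] at this
  rw [← this]
  simp


lemma arcsine_univ (g : ℝ) (hg : 0 < g) (f : ℝ → ℝ≥0∞) :
    ∫⁻ φ in Ioo (0 : ℝ) π, f (g * cos φ) =
      ∫⁻ s, f s * ENNReal.ofReal (1 / √(g ^ 2 - s ^ 2)) := by
  rw [arcsine g hg, ← lintegral_indicator measurableSet_Ioo]
  refine lintegral_congr fun s => ?_
  by_cases hs : s ∈ Ioo (-g) g
  · rw [indicator_of_mem hs]
  · rw [indicator_of_notMem hs]
    have : g ^ 2 - s ^ 2 ≤ 0 := by
      by_contra hcon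
      push Not at hcon
      apply hs
      have : |s| < g := by
        apply abs_lt_of_sq_lt_sq _ hg.le
        linarith
      exact ⟨(abs_lt.1 this).1, (abs_lt.1 this).2⟩
    rw [Real.sqrt_eq_zero_of_nonpos this]
    simp

/-- Archimedes: the law of `α η + κ √(r² - η²) cos φ` is uniform on `(-r, r)`. -/
theorem arch (r α κ : ℝ) (hr : 0 < r) (hκ : 0 < κ) (h : α ^ 2 + κ ^ 2 = 1) (f : ℝ → ℝ≥0∞)
    (hf : Measurable f) :
    ∫⁻ η in Ioo (-r) r, ∫⁻ φ in Ioo (0 : ℝ) π, f (α * η + κ * √(r ^ 2 - η ^ 2) * cos φ) =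
      ENNReal.ofReal π * ∫⁻ x in Ioo (-r) r, f x := by
  have hquad : ∀ η x : ℝ, κ ^ 2 * (r ^ 2 - η ^ 2) - (x - α * η) ^ 2 =
      κ ^ 2 * (r ^ 2 - x ^ 2) - (η - α * x) ^ 2 := by
    intro η x
    have h' : κ ^ 2 = 1 - α ^ 2 := by linarith
    rw [h']
    ring
  have hstep1 : ∫⁻ η in Ioo (-r) r, ∫⁻ φ in Ioo (0 : ℝ) π,
        f (α * η + κ * √(r ^ 2 - η ^ 2) * cos φ) =
      ∫⁻ η, ∫⁻ x, f x * ENNReal.ofReal (1 / √(κ ^ 2 * (r ^ 2 - η ^ 2) - (x - α * η) ^ 2)) := by
    rw [← lintegral_indicator measurableSet_Ioo]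
    refine lintegral_congr fun η => ?_
    by_cases hη : η ∈ Ioo (-r) r
    · rw [indicator_of_mem hη]
      have hpos : 0 < r ^ 2 - η ^ 2 := by nlinarith [hη.1, hη.2]
      have hg : 0 < κ * √(r ^ 2 - η ^ 2) := by positivity
      rw [arcsine_univ _ hg (fun s => f (α * η + s))]
      have hg2 : (κ * √(r ^ 2 - η ^ 2)) ^ 2 = κ ^ 2 * (r ^ 2 - η ^ 2) := by
        rw [mul_pow, Real.sq_sqrt hpos.le]
      rw [hg2]
      rw [← lintegral_add_left_eq_self (fun x => f x * ENNReal.ofReal
        (1 / √(κ ^ 2 * (r ^ 2 - η ^ 2) - (x - α * η) ^ 2))) (α * η)]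
      refine lintegral_congr fun s => ?_
      congr 4
      ring
    · rw [indicator_of_notMem hη]
      symm
      rw [lintegral_eq_zero_iff' ?_]
      · refine Filter.Eventually.of_forall fun x => ?_
        have h1 : κ ^ 2 * (r ^ 2 - η ^ 2) - (x - α * η) ^ 2 ≤ 0 := by
          have h2 : r ^ 2 - η ^ 2 ≤ 0 := by
            by_contra hcon
            push Not at hcon
            apply hη
            have : |η| < r := abs_lt_of_sq_lt_sq (by linarith) hr.le
            exact ⟨(abs_lt.1 this).1, (abs_lt.1 this).2⟩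
          nlinarith [sq_nonneg (x - α * η), sq_nonneg κ]
        simp only [Pi.zero_apply]
        rw [Real.sqrt_eq_zero_of_nonpos h1]
        simp
      · fun_prop
  rw [hstep1, lintegral_lintegral_swap]
  · have hin : ∀ x : ℝ, ∫⁻ η, f x * ENNReal.ofReal
        (1 / √(κ ^ 2 * (r ^ 2 - η ^ 2) - (x - α * η) ^ 2)) =
        (Ioo (-r) r).indicator (fun x => ENNReal.ofReal π * f x) x := by
      intro x
      have e1 : ∫⁻ η, f x * ENNReal.ofReal
          (1 / √(κ ^ 2 * (r ^ 2 - η ^ 2) - (x - α * η) ^ 2)) =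
          f x * ∫⁻ s, ENNReal.ofReal (1 / √(κ ^ 2 * (r ^ 2 - x ^ 2) - s ^ 2)) := by
        rw [lintegral_const_mul _ (by fun_prop)]
        congr 1
        rw [← lintegral_add_left_eq_self (fun η => ENNReal.ofReal
          (1 / √(κ ^ 2 * (r ^ 2 - η ^ 2) - (x - α * η) ^ 2))) (α * x)]
        refine lintegral_congr fun s => ?_
        rw [hquad]
        congr 4
        ring
      rw [e1]
      by_cases hx : x ∈ Ioo (-r) r
      · rw [indicator_of_mem hx]
        have hpos : 0 < r ^ 2 - x ^ 2 := by nlinarith [hx.1, hx.2]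
        have hg : 0 < κ * √(r ^ 2 - x ^ 2) := by positivity
        have hg2 : (κ * √(r ^ 2 - x ^ 2)) ^ 2 = κ ^ 2 * (r ^ 2 - x ^ 2) := by
          rw [mul_pow, Real.sq_sqrt hpos.le]
        have := arcsine_univ _ hg (fun _ => 1)
        simp only [one_mul, hg2] at this
        rw [← this]
        simp [mul_comm]
      · rw [indicator_of_notMem hx]
        have h0 : ∀ s : ℝ, ENNReal.ofReal (1 / √(κ ^ 2 * (r ^ 2 - x ^ 2) - s ^ 2)) = 0 := by
          intro s
          have h1 : κ ^ 2 * (r ^ 2 - x ^ 2) - s ^ 2 ≤ 0 := by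
            have h2 : r ^ 2 - x ^ 2 ≤ 0 := by
              by_contra hcon
              push Not at hcon
              apply hx
              have : |x| < r := abs_lt_of_sq_lt_sq (by linarith) hr.le
              exact ⟨(abs_lt.1 this).1, (abs_lt.1 this).2⟩
            nlinarith [sq_nonneg s, sq_nonneg κ]
          rw [Real.sqrt_eq_zero_of_nonpos h1]
          simp
        simp only [h0]
        simp
    simp only [hin]
    rw [lintegral_indicator measurableSet_Ioo, lintegral_const_mul _ hf]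
  · apply Measurable.aemeasurable
    apply Measurable.mul
    · exact hf.comp measurable_snd
    · fun_prop

end Pool.Agent.Helper61.FU
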