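import Pool.Agent.Helper61.FU.BasA
import Pool.Agent.Helper23.FU.Surj

/-!
# Base points and heights (project MP_a2630c_FU, row S_bas)
-/

open MeasureTheory Set Metric Real Filter Topology
open scoped RealInnerProductSpace ENNReal
open Pool.Agent.Helper16.Buoy (E cap IsEllipsoid Homothetic buoyancyBody)
open Pool.Agent.Helper73.HV (supp)
open Pool.Agent.Helper73.LR (CB vol GG Sol aff)
open Pool.Agent.Helper73.SY (CS)

namespace Pool.Agent.Helper61.FU

open Pool.Agent.Helper73.FU Pool.Agent.Helper65.LR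

variable {n : ℕ} {K : Set (E n)} {F τ : E n → ℝ} {δ lam : ℝ}

lemma yint (hCS : CS K δ lam) (hF : AF K F) (hL : Lev K δ F τ) (v : E n) :
    YY K lam F τ v ∈ interior K := by
  by_contra hcon
  have hK := hCS.cb
  obtain ⟨-, h2⟩ := s_fea hCS (meas hK (rr_contOn hF (v, τ v))) (rr_nn v (τ v)) (rr_le v (τ v))
    (hL.lev v)
  have h3 := h2 hcon
  obtain ⟨y, hy, hy1⟩ := hL.ne v
  have hg := Gpos hF hy
  have hc : |τ v - inner ℝ v y| < √(F y) := by
    unfold Wf at hy1
    apply abs_lt_of_sq_lt_sq _ hg.le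
    rw [Real.sq_sqrt (hF.pos y hy).le]
    linarith
  have hc' := abs_lt.1 hc
  have hp0 : 0 < rr F v (τ v) y := by
    have := pp_lt hg hc'.2 (Or.inl hc)
    rwa [pp_zero hg le_rfl] at this
  have hp1 : rr F v (τ v) y < 1 := by
    have := pp_lt hg hc'.1 (Or.inr hc)
    rwa [pp_one hg le_rfl] at this
  have hcont : ContinuousOn (fun y => rr F v (τ v) y * (1 - rr F v (τ v) y)) (interior K) :=
    (rr_contOn hF (v, τ v)).mul (continuousOn_const.sub (rr_contOn hF (v, τ v)))
  have hint : IntegrableOn (fun y => rr F v (τ v) y * (1 - rr F v (τ v) y)) K := by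
    refine intb hK hcont (C := 1) fun y _ => ?_
    have a := rr_nn (F := F) v (τ v) y
    have b := rr_le (F := F) v (τ v) y
    rw [Real.norm_eq_abs, abs_le]
    constructor <;> nlinarith
  have hpos := int_pos hK hcont hint (fun y _ => mul_nonneg (rr_nn _ _ _)
    (sub_nonneg.2 (rr_le _ _ _))) hy (mul_pos hp0 (sub_pos.2 hp1))
  have hz : ∫ y in K, rr F v (τ v) y * (1 - rr F v (τ v) y) = 0 := by
    apply integral_eq_zero_of_ae
    filter_upwards [h3] with x hx
    rcases hx with hx | hx <;> simp [hx]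
  linarith

lemma kk_ge (hJ : S_jj) (hCS : CS K δ lam) (hF : AF K F) (hL : Lev K δ F τ) {v : E n}
    (hv : v ≠ 0) : lam * supp K v ≤ kk K δ F v := by
  have hK := hCS.cb
  obtain ⟨t0, hvol, ht0⟩ := hCS.eq v hv
  have hcm : MeasurableSet (cap K v t0) :=
    hK.comp.measurableSet.inter (measurableSet_le measurable_const (by fun_prop))
  set ρ : E n → ℝ := (cap K v t0).indicator (fun _ => 1) with hρ
  have hm : AEStronglyMeasurable ρ (volume.restrict K) :=
    (measurable_const.indicator hcm).aestronglyMeasurable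
  have h0 : ∀ x, 0 ≤ ρ x := fun x => indicator_nonneg (fun _ _ => zero_le_one) x
  have h1 : ∀ x, ρ x ≤ 1 := fun x => by
    simp only [hρ, indicator]
    split_ifs <;> norm_num
  have hmass : ∫ x in K, ρ x = δ := by
    rw [hρ, setIntegral_indicator hcm]
    have : K ∩ cap K v t0 = cap K v t0 := inter_eq_right.2 inter_subset_left
    rw [this]
    simp only [integral_const, smul_eq_mul, mul_one, Measure.real, Measure.restrict_apply_univ,
      hvol, ENNReal.toReal_ofReal hCS.dpos.le]
  have e1 := (bath hK.comp hm h0 h1 hmass v t0).2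
  have e2 := (bath hK.comp hm h0 h1 hmass v (τ v)).2
  have hz : ∫ x in K, (max (inner ℝ v x - t0) 0 - ρ x * (inner ℝ v x - t0)) = 0 := by
    rw [setIntegral_congr_fun (g := fun _ => (0 : ℝ)) hK.comp.measurableSet]
    · simp
    · intro x hx
      simp only [hρ, indicator]
      split_ifs with h
      · have h5 : t0 ≤ inner ℝ v x := h.2
        rw [max_eq_left (by linarith)]
        ring
      · have h5 : inner ℝ v x < t0 := by
          by_contra h6
          push Not at h6
          exact h ⟨hx, h6⟩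
        rw [max_eq_right (by linarith)]
        ring
  have hnn : 0 ≤ ∫ x in K, (max (inner ℝ v x - τ v) 0 - ρ x * (inner ℝ v x - τ v)) :=
    integral_nonneg fun x => bath_nonneg h0 h1 v (τ v) x
  rw [hz, ht0] at e1
  rw [← e2] at hnn
  rw [hL.eq v]
  have hGJ : GG K v (τ v) ≤ JJ K (fun y => √(F y)) v (τ v) := by
    have hi1 : IntegrableOn (fun x : E n => max (inner ℝ v x - τ v) 0) K := by
      apply ContinuousOn.integrableOn_compact hK.comp
      fun_prop
    have hi2 := jj_int hJ hK hF v (τ v)
    unfold Pool.Agent.Helper73.LR.GG JJ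
    refine setIntegral_mono hi1 hi2 fun y => ?_
    obtain ⟨-, -, -, -, -, hbd, -⟩ := hJ
    obtain ⟨h5, h6, -⟩ := hbd (√(F y)) (τ v - inner ℝ v y) (Real.sqrt_nonneg _)
    exact max_le (by linarith) h5
  linarith

theorem s_bas (hJ : S_jj) : S_bas := by
  intro n K δ lam F τ hCS hF hL
  have hK := hCS.cb
  have hlam := hCS.lpos
  have hYc : Continuous (YY K lam F τ) := contYY hK hF hL.cont
  have hxc : Continuous (xx K lam F τ) := contxx hK hF hL.cont
  have hval := kk_val hJ hK hlam hF hL
  have hgrad := kk_grad hJ hK hlam hF hL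
  have hk : Continuous (kk K δ F) := by
    have e : kk K δ F = fun v => lam * (inner ℝ v (YY K lam F τ v) + xx K lam F τ v) :=
      funext hval
    rw [e]
    fun_prop
  refine ⟨hYc, hxc, yint hCS hF hL, fun y hy => ?_, xxpos hK hlam hF hL, hval, hgrad⟩
  obtain ⟨r, hr, hball⟩ := Metric.isOpen_iff.1 isOpen_interior y hy
  refine Pool.Agent.Helper23.FU.surj (k := kk K δ F) (r := lam * (r / 2)) hlam hYc hgrad y
    (by positivity) (fun v => ?_) hk
  by_cases hv : v = 0
  · subst hv
    rw [hval]
    have := xxpos hK hlam hF hL (0 : E n)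
    simp only [inner_zero_left, norm_zero, mul_zero, add_zero, zero_add]
    positivity
  · have h1 := kk_ge hJ hCS hF hL hv
    have hvn : 0 < ‖v‖ := norm_pos_iff.2 hv
    have hmem : y + (r / 2 / ‖v‖) • v ∈ K := by
      apply interior_subset
      apply hball
      rw [mem_ball, dist_eq_norm, add_sub_cancel_left, norm_smul, Real.norm_eq_abs,
        abs_of_pos (by positivity)]
      have : r / 2 / ‖v‖ * ‖v‖ = r / 2 := by field_simp
      rw [this]
      linarith
    have h2 := le_supp hK.comp hmem v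
    rw [inner_add_right, inner_smul_right, real_inner_self_eq_norm_sq] at h2
    have h3 : r / 2 / ‖v‖ * ‖v‖ ^ 2 = r / 2 * ‖v‖ := by field_simp
    rw [h3] at h2
    have h4 := mul_le_mul_of_nonneg_left h2 hlam.le
    calc lam * inner ℝ v y + lam * (r / 2) * ‖v‖ = lam * (inner ℝ v y + r / 2 * ‖v‖) := by ring
      _ ≤ lam * supp K v := h4
      _ ≤ kk K δ F v := h1

end Pool.Agent.Helper61.FU
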