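import Pool.Agent.Helper61.FU.Lev
import Pool.Agent.Helper61.FU.Fea

/-!
# Base points and heights (project MP_a2630c_FU, row S_bas, first part)
-/

open MeasureTheory Set Metric Real Filter Topology
open scoped RealInnerProductSpace ENNReal
open Pool.Agent.Helper16.Buoy (E cap IsEllipsoid Homothetic buoyancyBody)
open Pool.Agent.Helper73.HV (supp)
open Pool.Agent.Helper73.LR (CB vol GG Sol aff)
open Pool.Agent.Helper73.SY (CS)

namespace Pool.Agent.Helper61.FU

open Pool.Agent.Helper73.FU

variable {n : ℕ} {K : Set (E n)} {F τ : E n → ℝ} {δ lam : ℝ}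

lemma contYY (hK : CB K) (hF : AF K F) (hτ : Continuous τ) : Continuous (YY K lam F τ) := by
  have h1 : Continuous fun v : E n => ((v, τ v) : E n × ℝ) := by fun_prop
  have h2 := (contRy hK hF).comp h1
  have h3 : Continuous fun v : E n => ∫ y in K, rr F v (τ v) y • y := by
    simpa only [Function.comp_def] using h2
  exact h3.const_smul lam⁻¹

lemma contxx (hK : CB K) (hF : AF K F) (hτ : Continuous τ) : Continuous (xx K lam F τ) := by
  have h1 : Continuous fun v : E n => ((v, τ v) : E n × ℝ) := by fun_prop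
  have h2 := (contW hK hF).comp h1
  have h3 : Continuous fun v : E n => ∫ y in K, √(Wf F v (τ v) y) := by
    simpa only [Function.comp_def] using h2
  unfold xx
  exact h3.const_mul _

lemma xxpos (hK : CB K) (hlam : 0 < lam) (hF : AF K F) (hL : Lev K δ F τ) (v : E n) :
    0 < xx K lam F τ v := by
  obtain ⟨y, hy, hy1⟩ := hL.ne v
  unfold xx
  apply mul_pos (by have := pi_pos; positivity)
  exact int_pos hK (W_contOn hF (v, τ v)) (W_int hK hF v (τ v))
    (fun y _ => Real.sqrt_nonneg _) hy (Real.sqrt_pos.2 hy1)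

lemma rry_int (hK : CB K) (hF : AF K F) (v : E n) (t : ℝ) :
    IntegrableOn (fun y => rr F v t y • y) K :=
  int_smul hK.comp (meas hK (rr_contOn hF (v, t))) (rr_nn v t) (rr_le v t)

lemma inner_rry (hK : CB K) (hF : AF K F) (u v : E n) (t : ℝ) :
    inner ℝ u (∫ y in K, rr F v t y • y) = ∫ y in K, rr F v t y * inner ℝ u y :=
  inner_int hK.comp (meas hK (rr_contOn hF (v, t))) (rr_nn v t) (rr_le v t) u

lemma rru_int (hK : CB K) (hF : AF K F) (u v : E n) (t : ℝ) :
    IntegrableOn (fun y => rr F v t y * inner ℝ u y) K := by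
  have := (rry_int hK hF v t).const_inner (𝕜 := ℝ) u
  refine this.congr ?_
  refine Eventually.of_forall fun x => ?_
  simp only [inner_smul_right]

lemma JJ_val (hJ : S_jj) (hK : CB K) (hF : AF K F) (v : E n) (t : ℝ) :
    JJ K (fun y => √(F y)) v t = (1 / π) * (∫ y in K, √(Wf F v t y)) -
      t * (∫ y in K, rr F v t y) + inner ℝ v (∫ y in K, rr F v t y • y) := by
  obtain ⟨-, -, hval, -⟩ := hJ
  rw [inner_rry hK hF]
  have hi1 := (W_int hK hF v t).const_mul (1 / π)
  have hi2 := (rr_int hK hF v t).const_mul t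
  have hi3 := rru_int hK hF v v t
  have hi4 : IntegrableOn (fun y => 1 / π * √(Wf F v t y) - t * rr F v t y) K := hi1.sub hi2
  rw [← integral_const_mul, ← integral_const_mul, ← integral_sub hi1 hi2,
    ← integral_add hi4 hi3]
  unfold JJ
  refine int_congr hK fun y hy => ?_
  have hg := Gpos hF hy
  obtain ⟨h1, h2⟩ := hval (√(F y)) (t - inner ℝ v y) hg
  rw [h2, h1]
  have e : √(F y) ^ 2 - (t - inner ℝ v y) ^ 2 = Wf F v t y := by
    unfold Wf
    rw [Real.sq_sqrt (hF.pos y hy).le]
  rw [e]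
  have e2 : pp (√(F y)) (t - inner ℝ v y) = rr F v t y := rfl
  rw [e2]
  ring

lemma kk_val (hJ : S_jj) (hK : CB K) (hlam : 0 < lam) (hF : AF K F) (hL : Lev K δ F τ)
    (v : E n) : kk K δ F v = lam * (inner ℝ v (YY K lam F τ v) + xx K lam F τ v) := by
  rw [hL.eq v, JJ_val hJ hK hF, hL.lev v]
  unfold YY xx
  rw [inner_smul_right]
  have := pi_pos
  field_simp
  ring

lemma kk_grad (hJ : S_jj) (hK : CB K) (hlam : 0 < lam) (hF : AF K F) (hL : Lev K δ F τ)
    (v v' : E n) :
    kk K δ F v + lam * inner ℝ (v' - v) (YY K lam F τ v) ≤ kk K δ F v' := by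
  have h := JJ_tangent hJ hK hF v v' (τ v) (τ v')
  have e : ∫ y in K, ((τ v' - inner ℝ v' y) - (τ v - inner ℝ v y)) * rr F v (τ v) y =
      (τ v' - τ v) * δ - lam * inner ℝ (v' - v) (YY K lam F τ v) := by
    unfold YY
    rw [inner_smul_right, ← mul_assoc, mul_inv_cancel₀ hlam.ne', one_mul, inner_rry hK hF,
      ← hL.lev v, ← integral_const_mul,
      ← integral_sub ((rr_int hK hF v (τ v)).const_mul _) (rru_int hK hF _ v (τ v))]
    congr 1
    funext y
    rw [inner_sub_left]
    ring
  rw [e] at h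
  rw [hL.eq v, hL.eq v']
  linarith

end Pool.Agent.Helper61.FU
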