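import Pool.Agent.Helper73.FU.Stmts

/-!
# Basic facts for levels and base points (project MP_a2630c_FU)
-/

open MeasureTheory Set Metric Real Filter Topology
open scoped RealInnerProductSpace ENNReal
open Pool.Agent.Helper16.Buoy (E cap IsEllipsoid Homothetic buoyancyBody)
open Pool.Agent.Helper73.HV (supp)
open Pool.Agent.Helper73.LR (CB vol GG Sol aff)
open Pool.Agent.Helper73.SY (CS)

namespace Pool.Agent.Helper61.FU

open Pool.Agent.Helper73.FU

variable {n : ℕ} {K : Set (E n)} {F : E n → ℝ}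

lemma restr (hK : CB K) : (volume.restrict K : Measure (E n)) = volume.restrict (interior K) :=
  (Measure.restrict_congr_set
    (interior_ae_eq_of_null_frontier (hK.conv.addHaar_frontier volume))).symm

lemma int_congr {W : Type*} [NormedAddCommGroup W] [NormedSpace ℝ W] (hK : CB K) {f g : E n → W}
    (h : ∀ y ∈ interior K, f y = g y) : ∫ y in K, f y = ∫ y in K, g y := by
  rw [restr hK]
  exact setIntegral_congr_fun isOpen_interior.measurableSet h

lemma fin (hK : CB K) : IsFiniteMeasure (volume.restrict K : Measure (E n)) :=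
  ⟨by simpa using hK.comp.measure_lt_top⟩

lemma meas {W : Type*} [NormedAddCommGroup W] [NormedSpace ℝ W] (hK : CB K) {f : E n → W}
    (h : ContinuousOn f (interior K)) : AEStronglyMeasurable f (volume.restrict K) := by
  rw [restr hK]
  exact h.aestronglyMeasurable isOpen_interior.measurableSet

lemma intb {W : Type*} [NormedAddCommGroup W] [NormedSpace ℝ W] (hK : CB K) {f : E n → W}
    (h : ContinuousOn f (interior K)) {C : ℝ} (hC : ∀ y ∈ interior K, ‖f y‖ ≤ C) :
    IntegrableOn f K := by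
  have := fin hK
  refine Integrable.of_bound (meas hK h) C ?_
  rw [restr hK]
  exact (ae_restrict_iff' isOpen_interior.measurableSet).2 (Eventually.of_forall hC)

lemma cont_dom {W : Type*} [NormedAddCommGroup W] [NormedSpace ℝ W] (hK : CB K)
    {f : E n × ℝ → E n → W} (hm : ∀ p, ContinuousOn (f p) (interior K))
    (hc : ∀ y ∈ interior K, Continuous fun p => f p y) {C : ℝ}
    (hb : ∀ p, ∀ y ∈ interior K, ‖f p y‖ ≤ C) : Continuous fun p => ∫ y in K, f p y := by
  have := fin hK
  refine continuous_of_dominated (bound := fun _ => C) (fun p => meas hK (hm p)) (fun p => ?_)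
    (integrable_const C) ?_
  · rw [restr hK]
    exact (ae_restrict_iff' isOpen_interior.measurableSet).2 (Eventually.of_forall (hb p))
  · rw [restr hK]
    exact (ae_restrict_iff' isOpen_interior.measurableSet).2 (Eventually.of_forall hc)

/-- A nonnegative continuous function that is positive somewhere has positive integral. -/
lemma int_pos (hK : CB K) {f : E n → ℝ} (h : ContinuousOn f (interior K))
    (hi : IntegrableOn f K) (h0 : ∀ y ∈ interior K, 0 ≤ f y) {y0 : E n} (hy0 : y0 ∈ interior K)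
    (hp : 0 < f y0) : 0 < ∫ y in K, f y := by
  unfold IntegrableOn at hi
  rw [restr hK] at hi ⊢
  rw [setIntegral_pos_iff_support_of_nonneg_ae
    ((ae_restrict_iff' isOpen_interior.measurableSet).2 (Eventually.of_forall h0)) hi]
  have hop : IsOpen (interior K ∩ f ⁻¹' Ioi 0) := h.isOpen_inter_preimage isOpen_interior isOpen_Ioi
  refine lt_of_lt_of_le (hop.measure_pos volume ⟨y0, hy0, hp⟩) (measure_mono ?_)
  rintro y ⟨hy, hy1⟩
  exact ⟨(ne_of_gt hy1 : f y ≠ 0), hy⟩

lemma contF (hF : AF K F) : ContinuousOn F (interior K) := by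
  have h1 := hF.conc.continuousOn isOpen_interior
  have h2 : ContinuousOn (fun y : E n => ‖y‖ ^ 2) (interior K) := by fun_prop
  refine (h1.sub h2).congr fun y _ => ?_
  simp

lemma contG (hF : AF K F) : ContinuousOn (fun y => √(F y)) (interior K) :=
  (contF hF).sqrt

lemma Gpos (hF : AF K F) {y : E n} (hy : y ∈ interior K) : 0 < √(F y) :=
  Real.sqrt_pos.2 (hF.pos y hy)

lemma Gbdd (hF : AF K F) : ∃ C : ℝ, 0 < C ∧ ∀ y ∈ interior K, √(F y) ≤ C := by
  obtain ⟨C, hC⟩ := hF.bdd
  refine ⟨√C + 1, by positivity, fun y hy => ?_⟩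
  have := Real.sqrt_le_sqrt (hC y hy)
  linarith

lemma Kbdd (hK : CB K) : ∃ B : ℝ, 0 < B ∧ ∀ y ∈ interior K, ‖y‖ ≤ B := by
  obtain ⟨B, hB⟩ := hK.comp.isBounded.exists_norm_le
  refine ⟨|B| + 1, by positivity, fun y hy => ?_⟩
  have := hB y (interior_subset hy)
  have := le_abs_self B
  linarith

lemma pp_nn (g c : ℝ) : 0 ≤ pp g c := by
  unfold pp
  have := arccos_nonneg (c / g)
  have := pi_pos
  positivity

lemma pp_le (g c : ℝ) : pp g c ≤ 1 := by
  unfold pp
  rw [div_le_one pi_pos]
  exact arccos_le_pi _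

lemma pp_anti {g c c' : ℝ} (hg : 0 < g) (h : c ≤ c') : pp g c' ≤ pp g c := by
  unfold pp
  apply div_le_div_of_nonneg_right _ pi_pos.le
  apply Real.antitone_arccos
  exact div_le_div_of_nonneg_right h hg.le

lemma pp_lt {g c c' : ℝ} (hg : 0 < g) (h : c < c') (h2 : |c| < g ∨ |c'| < g) :
    pp g c' < pp g c := by
  have hd : c / g < c' / g := div_lt_div_of_pos_right h hg
  unfold pp
  apply div_lt_div_of_pos_right _ pi_pos
  rcases h2 with h2 | h2
  · have hc := abs_lt.1 h2
    have h3 : -1 < c / g := by rw [lt_div_iff₀ hg]; linarith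
    rcases le_total (c' / g) 1 with h4 | h4
    · exact Real.strictAntiOn_arccos ⟨h3.le, by linarith⟩ ⟨by linarith, h4⟩ hd
    · rw [Real.arccos_of_one_le h4]
      apply Real.arccos_pos.2
      rw [div_lt_one hg]
      exact hc.2
  · have hc := abs_lt.1 h2
    have h3 : c' / g < 1 := by rw [div_lt_one hg]; exact hc.2
    have h5 : -1 < c' / g := by rw [lt_div_iff₀ hg]; linarith
    rcases le_total (-1) (c / g) with h4 | h4
    · exact Real.strictAntiOn_arccos ⟨h4, by linarith⟩ ⟨h5.le, h3.le⟩ hd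
    · rw [Real.arccos_of_le_neg_one h4]
      have : arccos (c' / g) < arccos (-1) :=
        Real.strictAntiOn_arccos ⟨le_rfl, by norm_num⟩ ⟨h5.le, h3.le⟩ h5
      simpa using this

lemma pp_zero {g c : ℝ} (hg : 0 < g) (h : g ≤ c) : pp g c = 0 := by
  unfold pp
  rw [Real.arccos_of_one_le (by rw [one_le_div hg]; exact h), zero_div]

lemma pp_one {g c : ℝ} (hg : 0 < g) (h : c ≤ -g) : pp g c = 1 := by
  unfold pp
  rw [Real.arccos_of_le_neg_one (by rw [div_le_iff₀ hg]; linarith), div_self pi_pos.ne']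

lemma rr_contOn (hF : AF K F) (p : E n × ℝ) : ContinuousOn (rr F p.1 p.2) (interior K) := by
  unfold rr pp
  apply ContinuousOn.div_const
  apply Real.continuous_arccos.comp_continuousOn
  apply ContinuousOn.div (by fun_prop) (contG hF)
  intro y hy
  exact (Gpos hF hy).ne'

lemma rr_cont (y : E n) : Continuous fun p : E n × ℝ => rr F p.1 p.2 y := by
  unfold rr pp
  apply Continuous.div_const
  apply Real.continuous_arccos.comp
  apply Continuous.div_const
  fun_prop

lemma rr_nn (v : E n) (τ : ℝ) (y : E n) : 0 ≤ rr F v τ y := pp_nn _ _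

lemma rr_le (v : E n) (τ : ℝ) (y : E n) : rr F v τ y ≤ 1 := pp_le _ _

lemma rr_abs (v : E n) (τ : ℝ) (y : E n) : ‖rr F v τ y‖ ≤ 1 := by
  rw [Real.norm_eq_abs, abs_of_nonneg (rr_nn v τ y)]
  exact rr_le v τ y

lemma rr_int (hK : CB K) (hF : AF K F) (v : E n) (τ : ℝ) : IntegrableOn (rr F v τ) K :=
  intb hK (rr_contOn hF (v, τ)) fun y _ => rr_abs v τ y

lemma contR (hK : CB K) (hF : AF K F) :
    Continuous fun p : E n × ℝ => ∫ y in K, rr F p.1 p.2 y :=
  cont_dom hK (rr_contOn hF) (fun y _ => rr_cont y) fun p y _ => rr_abs p.1 p.2 y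

lemma contRy (hK : CB K) (hF : AF K F) :
    Continuous fun p : E n × ℝ => ∫ y in K, rr F p.1 p.2 y • y := by
  obtain ⟨B, hB0, hB⟩ := Kbdd hK
  refine cont_dom hK (C := B) (fun p => (rr_contOn hF p).smul continuousOn_id)
    (fun y _ => (rr_cont y).smul continuous_const) fun p y hy => ?_
  rw [norm_smul]
  have h1 := rr_abs (F := F) p.1 p.2 y
  have h2 := hB y hy
  nlinarith [norm_nonneg y, norm_nonneg (rr F p.1 p.2 y)]

lemma W_contOn (hF : AF K F) (p : E n × ℝ) :
    ContinuousOn (fun y => √(Wf F p.1 p.2 y)) (interior K) := by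
  unfold Wf
  apply ContinuousOn.sqrt
  apply ContinuousOn.sub (contF hF)
  fun_prop

lemma W_bdd (F : E n → ℝ) (v : E n) (τ : ℝ) (y : E n) : √(Wf F v τ y) ≤ √(F y) := by
  apply Real.sqrt_le_sqrt
  unfold Wf
  nlinarith [sq_nonneg (τ - inner ℝ v y)]

lemma W_int (hK : CB K) (hF : AF K F) (v : E n) (τ : ℝ) :
    IntegrableOn (fun y => √(Wf F v τ y)) K := by
  obtain ⟨C, hC0, hC⟩ := Gbdd hF
  refine intb hK (W_contOn hF (v, τ)) (C := C) fun y hy => ?_
  rw [Real.norm_eq_abs, abs_of_nonneg (Real.sqrt_nonneg _)]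
  exact (W_bdd F v τ y).trans (hC y hy)

lemma contW (hK : CB K) (hF : AF K F) :
    Continuous fun p : E n × ℝ => ∫ y in K, √(Wf F p.1 p.2 y) := by
  obtain ⟨C, hC0, hC⟩ := Gbdd hF
  refine cont_dom hK (W_contOn hF) (C := C) (fun y _ => ?_) fun p y hy => ?_
  · unfold Wf
    fun_prop
  · rw [Real.norm_eq_abs, abs_of_nonneg (Real.sqrt_nonneg _)]
    exact (W_bdd F p.1 p.2 y).trans (hC y hy)

end Pool.Agent.Helper61.FU
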