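import Pool.Agent.Helper61.FU.Arch

open MeasureTheory Set Real
open scoped ENNReal

namespace Pool.Agent.Helper61.FU

theorem arch_real (r α κ : ℝ) (hr : 0 < r) (hκ : 0 < κ) (h : α ^ 2 + κ ^ 2 = 1) (f : ℝ → ℝ)
    (hf : Continuous f) (hf0 : ∀ x, 0 ≤ f x) :
    ∫ η in (-r)..r, ∫ φ in (0 : ℝ)..π, f (α * η + κ * √(r ^ 2 - η ^ 2) * cos φ) =
      π * ∫ x in (-r)..r, f x := by
  have hrr : -r ≤ r := by linarith
  have hcont : Continuous fun η : ℝ =>
      ∫ φ in (0 : ℝ)..π, f (α * η + κ * √(r ^ 2 - η ^ 2) * cos φ) := by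
    apply intervalIntegral.continuous_parametric_intervalIntegral_of_continuous'
    apply hf.comp
    fun_prop
  have hnn : ∀ η : ℝ, 0 ≤ ∫ φ in (0 : ℝ)..π, f (α * η + κ * √(r ^ 2 - η ^ 2) * cos φ) :=
    fun η => intervalIntegral.integral_nonneg Real.pi_pos.le fun _ _ => hf0 _
  have key := arch r α κ hr hκ h (fun x => ENNReal.ofReal (f x))
    (ENNReal.measurable_ofReal.comp hf.measurable)
  have hinner : ∀ η : ℝ, ∫⁻ φ in Ioo (0 : ℝ) π,
      ENNReal.ofReal (f (α * η + κ * √(r ^ 2 - η ^ 2) * cos φ)) =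
      ENNReal.ofReal (∫ φ in (0 : ℝ)..π, f (α * η + κ * √(r ^ 2 - η ^ 2) * cos φ)) := by
    intro η
    rw [intervalIntegral.integral_of_le Real.pi_pos.le, integral_Ioc_eq_integral_Ioo,
      ofReal_integral_eq_lintegral_ofReal]
    · refine IntegrableOn.mono_set ?_ Ioo_subset_Icc_self
      apply Continuous.integrableOn_Icc
      apply hf.comp
      fun_prop
    · exact Filter.Eventually.of_forall fun _ => hf0 _
  simp only [hinner] at key
  rw [← ofReal_integral_eq_lintegral_ofReal, ← ofReal_integral_eq_lintegral_ofReal,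
    ← ENNReal.ofReal_mul Real.pi_pos.le] at key
  · rw [intervalIntegral.integral_of_le hrr, integral_Ioc_eq_integral_Ioo,
      intervalIntegral.integral_of_le hrr, integral_Ioc_eq_integral_Ioo]
    rw [ENNReal.ofReal_eq_ofReal_iff] at key
    · exact key
    · exact setIntegral_nonneg measurableSet_Ioo fun η _ => hnn η
    · exact mul_nonneg Real.pi_pos.le (setIntegral_nonneg measurableSet_Ioo fun η _ => hf0 η)
  · exact (hf.integrableOn_Icc).mono_set Ioo_subset_Icc_self
  · exact Filter.Eventually.of_forall fun _ => hf0 _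
  · exact (hcont.integrableOn_Icc).mono_set Ioo_subset_Icc_self
  · exact Filter.Eventually.of_forall fun _ => hnn _

/-- Pointwise duality. -/
lemma sin_dual (g c ρ : ℝ) (h0 : 0 ≤ ρ) (h1 : ρ ≤ 1) :
    g * sin (π * ρ) - c * (π * ρ) ≤ ∫ φ in (0 : ℝ)..π, max (g * cos φ - c) 0 := by
  have hπ := Real.pi_pos
  have e1 : ∫ φ in (0 : ℝ)..(π * ρ), (g * cos φ - c) = g * sin (π * ρ) - c * (π * ρ) := by
    rw [intervalIntegral.integral_sub, intervalIntegral.integral_const_mul, integral_cos]
    · simp
      ring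
    · exact (by fun_prop : Continuous fun φ : ℝ => g * cos φ).intervalIntegrable _ _
    · exact intervalIntegrable_const
  rw [← e1]
  have hle : 0 ≤ π * ρ := by positivity
  have hle2 : π * ρ ≤ π := by nlinarith
  have hc : Continuous fun φ : ℝ => max (g * cos φ - c) 0 := by fun_prop
  calc ∫ φ in (0 : ℝ)..(π * ρ), (g * cos φ - c)
      ≤ ∫ φ in (0 : ℝ)..(π * ρ), max (g * cos φ - c) 0 := by
        apply intervalIntegral.integral_mono_on hle
        · exact (by fun_prop : Continuous fun φ : ℝ => g * cos φ - c).intervalIntegrable _ _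
        · exact hc.intervalIntegrable _ _
        · intro x _
          exact le_max_left _ _
    _ ≤ ∫ φ in (0 : ℝ)..π, max (g * cos φ - c) 0 := by
        apply intervalIntegral.integral_mono_interval le_rfl hle hle2
        · exact Filter.Eventually.of_forall fun _ => le_max_right _ _
        · exact hc.intervalIntegrable _ _

lemma integral_max_sub (r c : ℝ) (h1 : -r ≤ c) (h2 : c ≤ r) :
    ∫ x in (-r)..r, max (x - c) 0 = (r - c) ^ 2 / 2 := by
  have hc : Continuous fun x : ℝ => max (x - c) 0 := by fun_prop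
  rw [← intervalIntegral.integral_add_adjacent_intervals (hc.intervalIntegrable _ c)
    (hc.intervalIntegrable c _)]
  have e1 : ∫ x in (-r)..c, max (x - c) 0 = 0 := by
    rw [intervalIntegral.integral_congr (g := fun _ => (0 : ℝ))]
    · simp
    · intro x hx
      rw [uIcc_of_le h1] at hx
      simp only []
      exact max_eq_right (by linarith [hx.2])
  have e2 : ∫ x in c..r, max (x - c) 0 = ∫ x in c..r, (x - c) := by
    apply intervalIntegral.integral_congr
    intro x hx
    rw [uIcc_of_le h2] at hx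
    simp only []
    exact max_eq_left (by linarith [hx.1])
  rw [e1, e2, intervalIntegral.integral_sub (intervalIntegral.intervalIntegrable_id)
    intervalIntegrable_const, integral_id, intervalIntegral.integral_const]
  simp
  ring


section

variable (r : ℝ) (ρ : ℝ → ℝ)

lemma ii_bdd (f : ℝ → ℝ) (hf : Measurable f) (C : ℝ) (a b : ℝ)
    (hC : ∀ x ∈ uIcc a b, |f x| ≤ C) : IntervalIntegrable f volume a b := by
  rw [intervalIntegrable_iff]
  refine Measure.integrableOn_of_bounded (M := C) ?_ hf.aestronglyMeasurable ?_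
  · simp [uIoc]
  · refine (ae_restrict_iff' measurableSet_uIoc).2 (Filter.Eventually.of_forall fun x hx => ?_)
    exact hC x (uIoc_subset_uIcc hx)

lemma dual_int (hr : 0 < r) (hρ : Measurable ρ) (h0 : ∀ η, 0 ≤ ρ η) (h1 : ∀ η, ρ η ≤ 1)
    (α κ : ℝ) (hκ : 0 ≤ κ) (h : α ^ 2 + κ ^ 2 = 1) :
    α * (∫ η in (-r)..r, ρ η * η) +
      κ * ((1 / π) * ∫ η in (-r)..r, √(r ^ 2 - η ^ 2) * sin (π * ρ η)) ≤
      r * (∫ η in (-r)..r, ρ η) - (∫ η in (-r)..r, ρ η) ^ 2 / 2 := by
  have hπ := Real.pi_pos
  have hrr : -r ≤ r := by linarith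
  set a : ℝ := ∫ η in (-r)..r, ρ η with ha
  have hiρ : IntervalIntegrable ρ volume (-r) r :=
    ii_bdd ρ hρ 1 _ _ fun x _ => by rw [abs_le]; constructor <;> linarith [h0 x, h1 x]
  have hiρη : IntervalIntegrable (fun η => ρ η * η) volume (-r) r := by
    refine ii_bdd _ (by fun_prop) r _ _ fun x hx => ?_
    rw [uIcc_of_le hrr] at hx
    rw [abs_mul, abs_of_nonneg (h0 x)]
    have : |x| ≤ r := abs_le.2 hx
    nlinarith [h0 x, h1 x, abs_nonneg x]
  have his : IntervalIntegrable (fun η => √(r ^ 2 - η ^ 2) * sin (π * ρ η)) volume (-r) r := by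
    refine ii_bdd _ (by fun_prop) r _ _ fun x hx => ?_
    rw [uIcc_of_le hrr] at hx
    rw [abs_mul, abs_of_nonneg (Real.sqrt_nonneg _)]
    have h2 : |sin (π * ρ x)| ≤ 1 := Real.abs_sin_le_one _
    have h3 : √(r ^ 2 - x ^ 2) ≤ r := by
      rw [Real.sqrt_le_left hr.le]
      nlinarith [sq_nonneg x]
    have h4 : 0 ≤ √(r ^ 2 - x ^ 2) := Real.sqrt_nonneg _
    nlinarith [abs_nonneg (sin (π * ρ x))]
  have ha0 : 0 ≤ a := intervalIntegral.integral_nonneg hrr fun x _ => h0 x
  have ha1 : a ≤ 2 * r := by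
    have : a ≤ ∫ η in (-r)..r, (1 : ℝ) :=
      intervalIntegral.integral_mono_on hrr hiρ intervalIntegrable_const fun x _ => h1 x
    simp at this
    linarith
  set c : ℝ := r - a with hc
  have hc1 : -r ≤ c := by simp only [hc]; linarith
  have hc2 : c ≤ r := by simp only [hc]; linarith
  have hlhs : α * (∫ η in (-r)..r, ρ η * η) +
      κ * ((1 / π) * ∫ η in (-r)..r, √(r ^ 2 - η ^ 2) * sin (π * ρ η)) - c * a =
      ∫ η in (-r)..r, (α * (ρ η * η) + κ * ((1 / π) * (√(r ^ 2 - η ^ 2) * sin (π * ρ η)))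
        - c * ρ η) := by
    rw [intervalIntegral.integral_sub, intervalIntegral.integral_add,
      intervalIntegral.integral_const_mul, intervalIntegral.integral_const_mul,
      intervalIntegral.integral_const_mul, intervalIntegral.integral_const_mul]
    · exact hiρη.const_mul α
    · exact (his.const_mul (1 / π)).const_mul κ
    · exact (hiρη.const_mul α).add ((his.const_mul (1 / π)).const_mul κ)
    · exact hiρ.const_mul c
  have hint : IntervalIntegrable (fun η => α * (ρ η * η) +
      κ * ((1 / π) * (√(r ^ 2 - η ^ 2) * sin (π * ρ η))) - c * ρ η) volume (-r) r :=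
    ((hiρη.const_mul α).add ((his.const_mul (1 / π)).const_mul κ)).sub (hiρ.const_mul c)
  have hfin : ∫ η in (-r)..r, (α * (ρ η * η) + κ * ((1 / π) * (√(r ^ 2 - η ^ 2) *
      sin (π * ρ η))) - c * ρ η) ≤ (r - c) ^ 2 / 2 := by
    rcases hκ.eq_or_lt with hk | hk
    · -- κ = 0
      subst hk
      have hα : α ^ 2 = 1 := by nlinarith
      have hα' : α = 1 ∨ α = -1 := by
        have h3 : (α - 1) * (α + 1) = 0 := by nlinarith
        rcases mul_eq_zero.1 h3 with h4 | h4
        · exact Or.inl (by linarith)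
        · exact Or.inr (by linarith)
      have hle : ∫ η in (-r)..r, (α * (ρ η * η) + 0 * ((1 / π) * (√(r ^ 2 - η ^ 2) *
          sin (π * ρ η))) - c * ρ η) ≤ ∫ η in (-r)..r, max (α * η - c) 0 := by
        apply intervalIntegral.integral_mono_on hrr hint
        · exact (by fun_prop : Continuous fun η : ℝ => max (α * η - c) 0).intervalIntegrable _ _
        · intro x _
          have e : α * (ρ x * x) + 0 * ((1 / π) * (√(r ^ 2 - x ^ 2) * sin (π * ρ x))) - c * ρ x
              = ρ x * (α * x - c) := by ring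
          rw [e]
          rcases le_total 0 (α * x - c) with h2 | h2
          · rw [max_eq_left h2]
            nlinarith [h0 x, h1 x]
          · rw [max_eq_right h2]
            nlinarith [h0 x, h1 x]
      refine hle.trans ?_
      rcases hα' with rfl | rfl
      · simp only [one_mul]
        rw [integral_max_sub r c hc1 hc2]
      · have := intervalIntegral.integral_comp_neg (a := -r) (b := r) (fun x => max (x - c) 0)
        simp only [neg_neg] at this
        have e2 : (fun η : ℝ => max (-1 * η - c) 0) = fun η => max (-η - c) 0 := by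
          funext η
          congr 1
          ring
        rw [e2, this, integral_max_sub r c hc1 hc2]
    · -- κ > 0
      have harch := arch_real r α κ hr hk h (fun x => max (x - c) 0) (by fun_prop)
        (fun x => le_max_right _ _)
      rw [integral_max_sub r c hc1 hc2] at harch
      have hcont : Continuous fun η : ℝ =>
          ∫ φ in (0 : ℝ)..π, max (α * η + κ * √(r ^ 2 - η ^ 2) * cos φ - c) 0 := by
        apply intervalIntegral.continuous_parametric_intervalIntegral_of_continuous'
        fun_prop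
      have hle : ∫ η in (-r)..r, (α * (ρ η * η) + κ * ((1 / π) * (√(r ^ 2 - η ^ 2) *
          sin (π * ρ η))) - c * ρ η) ≤ ∫ η in (-r)..r, (1 / π) *
          ∫ φ in (0 : ℝ)..π, max (α * η + κ * √(r ^ 2 - η ^ 2) * cos φ - c) 0 := by
        apply intervalIntegral.integral_mono_on hrr hint
        · exact (hcont.const_mul (1 / π)).intervalIntegrable _ _
        · intro x _
          have hd := sin_dual (κ * √(r ^ 2 - x ^ 2)) (c - α * x) (ρ x) (h0 x) (h1 x)
          have e : ∀ φ : ℝ, κ * √(r ^ 2 - x ^ 2) * cos φ - (c - α * x) =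
              α * x + κ * √(r ^ 2 - x ^ 2) * cos φ - c := fun φ => by ring
          simp only [e] at hd
          have e2 : α * (ρ x * x) + κ * ((1 / π) * (√(r ^ 2 - x ^ 2) * sin (π * ρ x))) - c * ρ x
              = (1 / π) * (κ * √(r ^ 2 - x ^ 2) * sin (π * ρ x) - (c - α * x) * (π * ρ x)) := by
            field_simp
            ring
          rw [e2]
          exact mul_le_mul_of_nonneg_left hd (by positivity)
      refine hle.trans (le_of_eq ?_)
      rw [intervalIntegral.integral_const_mul]
      rw [harch]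
      field_simp
  rw [← hlhs] at hfin
  have : r * a - a ^ 2 / 2 = (r - c) ^ 2 / 2 + c * a := by
    simp only [hc]
    ring
  rw [this]
  linarith

/-- (L1) -/
theorem l1 (hr : 0 < r) (hρ : Measurable ρ) (h0 : ∀ η, 0 ≤ ρ η) (h1 : ∀ η, ρ η ≤ 1) :
    (∫ η in (-r)..r, ρ η * η) ^ 2 +
      ((1 / π) * ∫ η in (-r)..r, √(r ^ 2 - η ^ 2) * sin (π * ρ η)) ^ 2 ≤
      (r * (∫ η in (-r)..r, ρ η) - (∫ η in (-r)..r, ρ η) ^ 2 / 2) ^ 2 := by
  have hrr : -r ≤ r := by linarith
  have hd := dual_int r ρ hr hρ h0 h1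
  set P : ℝ := ∫ η in (-r)..r, ρ η * η
  set Q : ℝ := (1 / π) * ∫ η in (-r)..r, √(r ^ 2 - η ^ 2) * sin (π * ρ η) with hQ
  set B : ℝ := r * (∫ η in (-r)..r, ρ η) - (∫ η in (-r)..r, ρ η) ^ 2 / 2
  have hQ0 : 0 ≤ Q := by
    apply mul_nonneg (by positivity)
    apply intervalIntegral.integral_nonneg hrr
    intro x _
    apply mul_nonneg (Real.sqrt_nonneg _)
    apply Real.sin_nonneg_of_nonneg_of_le_pi
    · exact mul_nonneg Real.pi_pos.le (h0 x)
    · have := h1 x
      nlinarith [Real.pi_pos]
  rcases (add_nonneg (sq_nonneg P) (sq_nonneg Q)).eq_or_lt with hz | hz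
  · rw [← hz]
    positivity
  · set R : ℝ := √(P ^ 2 + Q ^ 2) with hR
    have hRpos : 0 < R := Real.sqrt_pos.2 hz
    have hR2 : R ^ 2 = P ^ 2 + Q ^ 2 := Real.sq_sqrt hz.le
    have := hd (P / R) (Q / R) (by positivity) (by
      field_simp
      linarith)
    have e : P / R * P + Q / R * Q = R := by
      field_simp
      linarith
    rw [e] at this
    rw [← hR2]
    nlinarith

end

end Pool.Agent.Helper61.FU
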