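import Pool.Agent.Helper61.FU.Base

/-!
# Levels (project MP_a2630c_FU, row S_lev)
-/

open MeasureTheory Set Metric Real Filter Topology
open scoped RealInnerProductSpace ENNReal
open Pool.Agent.Helper16.Buoy (E cap IsEllipsoid Homothetic buoyancyBody)
open Pool.Agent.Helper73.HV (supp)
open Pool.Agent.Helper73.LR (CB vol GG Sol aff)
open Pool.Agent.Helper73.SY (CS)

namespace Pool.Agent.Helper61.FU

open Pool.Agent.Helper73.FU

variable {n : ℕ} {K : Set (E n)} {F : E n → ℝ}

lemma int_one (K : Set (E n)) : ∫ _ in K, (1 : ℝ) = vol K := by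
  simp [vol, Measure.real]

lemma contRt (hK : CB K) (hF : AF K F) (v : E n) :
    Continuous fun τ : ℝ => ∫ y in K, rr F v τ y := by
  have h1 : Continuous fun τ : ℝ => ((v, τ) : E n × ℝ) := by fun_prop
  have h2 := (contR hK hF).comp h1
  simpa only [Function.comp_def] using h2

lemma contRv (hK : CB K) (hF : AF K F) (τ : ℝ) :
    Continuous fun v : E n => ∫ y in K, rr F v τ y := by
  have h1 : Continuous fun v : E n => ((v, τ) : E n × ℝ) := by fun_prop
  have h2 := (contR hK hF).comp h1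
  simpa only [Function.comp_def] using h2

lemma R_anti (hK : CB K) (hF : AF K F) (v : E n) {τ τ' : ℝ} (h : τ ≤ τ') :
    ∫ y in K, rr F v τ' y ≤ ∫ y in K, rr F v τ y := by
  have h1 := rr_int hK hF v τ
  have h2 := rr_int hK hF v τ'
  unfold IntegrableOn at h1 h2
  rw [restr hK] at h1 h2 ⊢
  refine setIntegral_mono_on h2 h1 isOpen_interior.measurableSet fun y hy => ?_
  exact pp_anti (Gpos hF hy) (by linarith)

lemma R_one (hK : CB K) (hF : AF K F) {v : E n} {τ : ℝ}
    (h : ∀ y ∈ interior K, τ - inner ℝ v y ≤ -√(F y)) : ∫ y in K, rr F v τ y = vol K := by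
  rw [← int_one K]
  exact int_congr hK fun y hy => pp_one (Gpos hF hy) (h y hy)

lemma R_zero (hK : CB K) (hF : AF K F) {v : E n} {τ : ℝ}
    (h : ∀ y ∈ interior K, √(F y) ≤ τ - inner ℝ v y) : ∫ y in K, rr F v τ y = 0 := by
  have : ∫ y in K, rr F v τ y = ∫ _ in K, (0 : ℝ) :=
    int_congr hK fun y hy => pp_zero (Gpos hF hy) (h y hy)
  rw [this]
  simp

/-- At a level of intermediate mass some point of the interior is strictly active. -/
lemma active (hK : CB K) (hF : AF K F) {v : E n} {τ : ℝ} (h0 : 0 < ∫ y in K, rr F v τ y)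
    (h1 : ∫ y in K, rr F v τ y < vol K) :
    ∃ y ∈ interior K, |τ - inner ℝ v y| < √(F y) := by
  by_contra hcon
  push Not at hcon
  have hcc : ContinuousOn (fun y => τ - inner ℝ v y) (interior K) := by fun_prop
  have hconn : IsPreconnected (interior K) := hK.conv.interior.isPreconnected
  obtain ⟨y1, hy1⟩ := hK.int
  have hne : ∀ y ∈ interior K, τ - inner ℝ v y ≠ 0 := by
    intro y hy h
    have := hcon y hy
    rw [h, abs_zero] at this
    linarith [Gpos hF hy]
  rcases lt_or_gt_of_ne (hne y1 hy1) with hs | hs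
  · -- negative everywhere
    have hall : ∀ y ∈ interior K, τ - inner ℝ v y < 0 := by
      intro y hy
      by_contra h2
      push Not at h2
      obtain ⟨z, hz, hz0⟩ := hconn.intermediate_value hy1 hy hcc
        (show (0 : ℝ) ∈ Icc _ _ from ⟨hs.le, h2⟩)
      exact hne z hz hz0
    have := R_one hK hF (v := v) (τ := τ) fun y hy => by
      have h2 := hcon y hy
      rw [abs_of_neg (hall y hy)] at h2
      linarith
    linarith
  · have hall : ∀ y ∈ interior K, 0 < τ - inner ℝ v y := by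
      intro y hy
      by_contra h2
      push Not at h2
      obtain ⟨z, hz, hz0⟩ := hconn.intermediate_value hy hy1 hcc
        (show (0 : ℝ) ∈ Icc _ _ from ⟨h2, hs.le⟩)
      exact hne z hz hz0
    have := R_zero hK hF (v := v) (τ := τ) fun y hy => by
      have h2 := hcon y hy
      rwa [abs_of_pos (hall y hy)] at h2
    linarith

lemma R_strict (hK : CB K) (hF : AF K F) {v : E n} {τ τ' : ℝ} (h : τ < τ')
    (ha : ∃ y ∈ interior K, |τ - inner ℝ v y| < √(F y) ∨ |τ' - inner ℝ v y| < √(F y)) :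
    ∫ y in K, rr F v τ' y < ∫ y in K, rr F v τ y := by
  obtain ⟨y0, hy0, hy1⟩ := ha
  have hi := (rr_int hK hF v τ).sub (rr_int hK hF v τ')
  have hpos := int_pos hK (f := fun y => rr F v τ y - rr F v τ' y)
    ((rr_contOn hF (v, τ)).sub (rr_contOn hF (v, τ'))) hi
    (fun y hy => sub_nonneg.2 (pp_anti (Gpos hF hy) (by linarith))) hy0
    (sub_pos.2 (pp_lt (Gpos hF hy0) (by linarith) hy1))
  rw [integral_sub (rr_int hK hF v τ) (rr_int hK hF v τ')] at hpos
  linarith

lemma exists_level (hK : CB K) (hF : AF K F) {δ : ℝ} (h0 : 0 < δ) (h1 : δ < vol K) (v : E n) :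
    ∃ τ : ℝ, ∫ y in K, rr F v τ y = δ := by
  obtain ⟨B, hB0, hB⟩ := Kbdd hK
  obtain ⟨C, hC0, hC⟩ := Gbdd hF
  set M : ℝ := ‖v‖ * B + C with hM
  have hin : ∀ y ∈ interior K, |(inner ℝ v y : ℝ)| ≤ ‖v‖ * B := fun y hy =>
    (abs_real_inner_le_norm v y).trans (mul_le_mul_of_nonneg_left (hB y hy) (norm_nonneg v))
  have hz : ∫ y in K, rr F v M y = 0 := R_zero hK hF fun y hy => by
    have := (abs_le.1 (hin y hy)).2
    have := hC y hy
    linarith
  have ho : ∫ y in K, rr F v (-M) y = vol K := R_one hK hF fun y hy => by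
    have := (abs_le.1 (hin y hy)).1
    have := hC y hy
    linarith
  have := mem_range_of_exists_le_of_exists_ge (contRt hK hF v) (c := δ)
    ⟨M, hz.le.trans h0.le⟩ ⟨-M, h1.le.trans ho.ge⟩
  exact this

lemma jj_int (hJ : S_jj) (hK : CB K) (hF : AF K F) (v : E n) (τ : ℝ) :
    IntegrableOn (fun y => jj (√(F y)) (τ - inner ℝ v y)) K := by
  obtain ⟨B, hB0, hB⟩ := Kbdd hK
  obtain ⟨C, hC0, hC⟩ := Gbdd hF
  obtain ⟨-, -, -, -, -, hbd, -, -, hcont⟩ := hJ
  refine intb hK (C := C + |τ| + ‖v‖ * B) ?_ fun y hy => ?_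
  · refine hcont.comp_continuousOn (f := fun y => (√(F y), τ - inner ℝ v y)) ?_
    exact (contG hF).prodMk (by fun_prop)
  · have hin : |(inner ℝ v y : ℝ)| ≤ ‖v‖ * B :=
      (abs_real_inner_le_norm v y).trans (mul_le_mul_of_nonneg_left (hB y hy) (norm_nonneg v))
    obtain ⟨h1, h2, h3⟩ := hbd (√(F y)) (τ - inner ℝ v y) (Real.sqrt_nonneg _)
    rw [Real.norm_eq_abs, abs_of_nonneg h1]
    refine h3.trans (max_le ?_ (by positivity))
    have := hC y hy
    have := (abs_le.1 hin).2
    have := neg_abs_le τ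
    linarith

/-- Convexity in the level, integrated: the tangent inequality. -/
lemma JJ_tangent (hJ : S_jj) (hK : CB K) (hF : AF K F) (v v' : E n) (τ τ' : ℝ) :
    JJ K (fun y => √(F y)) v τ - ∫ y in K, ((τ' - inner ℝ v' y) - (τ - inner ℝ v y)) *
      rr F v τ y ≤ JJ K (fun y => √(F y)) v' τ' := by
  have hi1 := jj_int hJ hK hF v τ
  have hi2 := jj_int hJ hK hF v' τ'
  have hi3 : IntegrableOn (fun y => ((τ' - inner ℝ v' y) - (τ - inner ℝ v y)) * rr F v τ y) K := by
    obtain ⟨B, hB0, hB⟩ := Kbdd hK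
    refine intb hK (C := |τ' - τ| + ‖v' - v‖ * B) ?_ fun y hy => ?_
    · exact ContinuousOn.mul (by fun_prop) (rr_contOn hF (v, τ))
    · rw [norm_mul]
      have h1 := rr_abs (F := F) v τ y
      have h2 : ‖(τ' - inner ℝ v' y) - (τ - inner ℝ v y)‖ ≤ |τ' - τ| + ‖v' - v‖ * B := by
        have e : (τ' - inner ℝ v' y) - (τ - inner ℝ v y) = (τ' - τ) - inner ℝ (v' - v) y := by
          rw [inner_sub_left]; ring
        rw [e, Real.norm_eq_abs]
        refine (abs_sub _ _).trans ?_
        have : |(inner ℝ (v' - v) y : ℝ)| ≤ ‖v' - v‖ * B :=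
          (abs_real_inner_le_norm _ y).trans (mul_le_mul_of_nonneg_left (hB y hy) (norm_nonneg _))
        linarith
      nlinarith [norm_nonneg ((τ' - inner ℝ v' y) - (τ - inner ℝ v y)), norm_nonneg (rr F v τ y)]
  unfold JJ
  rw [← integral_sub hi1 hi3]
  have hi4 := hi1.sub hi3
  unfold IntegrableOn at hi4 hi2
  rw [restr hK] at hi4 hi2 ⊢
  refine setIntegral_mono_on hi4 hi2 isOpen_interior.measurableSet fun y hy => ?_
  obtain ⟨-, hyoung, hval, -⟩ := hJ
  have hg := Gpos hF hy
  have h1 := hyoung (√(F y)) (τ' - inner ℝ v' y) (rr F v τ y) hg.le (rr_nn v τ y) (rr_le v τ y)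
  have h2 := (hval (√(F y)) (τ - inner ℝ v y) hg).2
  have e : rr F v τ y = pp (√(F y)) (τ - inner ℝ v y) := rfl
  rw [← e] at h2
  simp only []
  linarith

theorem s_lev (hJ : S_jj) : S_lev := by
  intro n K δ F hK h0 h1 hF
  choose τ hτ using exists_level hK hF h0 h1
  have hact : ∀ v, ∃ y ∈ interior K, |τ v - inner ℝ v y| < √(F y) := fun v =>
    active hK hF (by rw [hτ v]; exact h0) (by rw [hτ v]; exact h1)
  have hle : ∀ v t, JJ K (fun y => √(F y)) v (τ v) + δ * τ v ≤
      JJ K (fun y => √(F y)) v t + δ * t := by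
    intro v t
    have h := JJ_tangent hJ hK hF v v (τ v) t
    have e : ∫ y in K, ((t - inner ℝ v y) - (τ v - inner ℝ v y)) * rr F v (τ v) y =
        (t - τ v) * δ := by
      rw [← hτ v, ← integral_const_mul]
      congr 1
      funext y
      ring
    rw [e] at h
    linarith
  have hbdd : ∀ v, BddBelow (range fun t => JJ K (fun y => √(F y)) v t + δ * t) := by
    intro v
    refine ⟨JJ K (fun y => √(F y)) v (τ v) + δ * τ v, ?_⟩
    rintro _ ⟨t, rfl⟩
    exact hle v t
  have heq : ∀ v, kk K δ F v = JJ K (fun y => √(F y)) v (τ v) + δ * τ v := fun v =>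
    le_antisymm (ciInf_le (hbdd v) (τ v)) (le_ciInf (hle v))
  refine ⟨τ, ⟨?_, hτ, heq, fun v t => by rw [heq]; exact hle v t, fun v => ?_⟩⟩
  · rw [continuous_iff_continuousAt]
    intro v0
    rw [ContinuousAt, Metric.tendsto_nhds]
    intro ε hε
    have hc1 := contRv hK hF (τ v0 - ε / 2)
    have hc2 := contRv hK hF (τ v0 + ε / 2)
    obtain ⟨y0, hy0, hy1⟩ := hact v0
    have hs1 : δ < ∫ y in K, rr F v0 (τ v0 - ε / 2) y := by
      have := R_strict hK hF (v := v0) (τ := τ v0 - ε / 2) (τ' := τ v0) (by linarith)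
        ⟨y0, hy0, Or.inr hy1⟩
      rwa [hτ v0] at this
    have hs2 : ∫ y in K, rr F v0 (τ v0 + ε / 2) y < δ := by
      have := R_strict hK hF (v := v0) (τ := τ v0) (τ' := τ v0 + ε / 2) (by linarith)
        ⟨y0, hy0, Or.inl hy1⟩
      rwa [hτ v0] at this
    filter_upwards [hc1.continuousAt.eventually (lt_mem_nhds hs1),
      hc2.continuousAt.eventually (gt_mem_nhds hs2)] with v hv1 hv2
    have h3 : τ v0 - ε / 2 < τ v := by
      by_contra hcon
      push Not at hcon
      have := R_anti hK hF v hcon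
      rw [hτ v] at this
      linarith
    have h4 : τ v < τ v0 + ε / 2 := by
      by_contra hcon
      push Not at hcon
      have := R_anti hK hF v hcon
      rw [hτ v] at this
      linarith
    rw [Real.dist_eq, abs_lt]
    constructor <;> linarith
  · obtain ⟨y, hy, hy1⟩ := hact v
    refine ⟨y, hy, ?_⟩
    unfold Wf
    have h2 : (τ v - inner ℝ v y) ^ 2 < F y := by
      have h3 : |τ v - inner ℝ v y| ^ 2 < √(F y) ^ 2 := by
        have := abs_nonneg (τ v - inner ℝ v y)
        nlinarith [Real.sqrt_nonneg (F y)]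
      rwa [sq_abs, Real.sq_sqrt (hF.pos y hy).le] at h3
    linarith

end Pool.Agent.Helper61.FU
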