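import Pool.Agent.Helper73.FU.Stmts
import Pool.Agent.Helper61.FU.L1

/-!
# The fibre inequality (project MP_a2630c_FU, row S_l1)
-/

open MeasureTheory Set Metric Real Filter Topology

namespace Pool.Agent.Helper61.FU

open Pool.Agent.Helper73.FU

theorem s_l1 : S_l1 := by
  intro r ρ hr hm hρ
  rcases hr.eq_or_lt with h0 | hr
  · subst h0
    have hz : volume.restrict (Icc (-(0 : ℝ)) 0) = 0 := by
      rw [Measure.restrict_eq_zero]
      simp
    rw [hz]
    simp
  have hrr : -r ≤ r := by linarith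
  -- a measurable representative
  obtain ⟨σ, hσm, hσe⟩ : ∃ σ : ℝ → ℝ, Measurable σ ∧ ρ =ᵐ[volume.restrict (Icc (-r) r)] σ :=
    ⟨hm.mk ρ, hm.stronglyMeasurable_mk.measurable, hm.ae_eq_mk⟩
  set ρ' : ℝ → ℝ := fun η => max 0 (min 1 (σ η)) with hρ'
  have hρ'm : Measurable ρ' := by
    simp only [hρ']
    fun_prop
  have h0 : ∀ η, 0 ≤ ρ' η := fun η => le_max_left _ _
  have h1 : ∀ η, ρ' η ≤ 1 := fun η => max_le (by norm_num) (min_le_left _ _)
  have hae : ρ =ᵐ[volume.restrict (Icc (-r) r)] ρ' := by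
    filter_upwards [hσe] with η hη
    simp only [hρ']
    rw [← hη, min_eq_right (hρ η).2, max_eq_right (hρ η).1]
  have hII : ∀ f : ℝ → ℝ, ∫ η in Icc (-r) r, f η = ∫ η in (-r)..r, f η := by
    intro f
    rw [intervalIntegral.integral_of_le hrr, integral_Icc_eq_integral_Ioc]
  have e1 : ∫ η in Icc (-r) r, ρ η = ∫ η in (-r)..r, ρ' η := by
    rw [← hII]
    exact integral_congr_ae hae
  have e2 : ∫ η in Icc (-r) r, ρ η * η = ∫ η in (-r)..r, ρ' η * η := by
    rw [← hII]
    refine integral_congr_ae ?_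
    filter_upwards [hae] with η hη
    rw [hη]
  have e3 : ∫ η in Icc (-r) r, √(r ^ 2 - η ^ 2) * sin (π * ρ η) / π =
      (1 / π) * ∫ η in (-r)..r, √(r ^ 2 - η ^ 2) * sin (π * ρ' η) := by
    rw [← hII, ← integral_const_mul]
    refine integral_congr_ae ?_
    filter_upwards [hae] with η hη
    rw [hη]
    ring
  rw [e1, e2, e3]
  have key := l1 r ρ' hr hρ'm h0 h1
  have ha0 : 0 ≤ ∫ η in (-r)..r, ρ' η := intervalIntegral.integral_nonneg hrr fun x _ => h0 x
  have ha1 : ∫ η in (-r)..r, ρ' η ≤ 2 * r := by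
    have hi : IntervalIntegrable ρ' volume (-r) r :=
      ii_bdd ρ' hρ'm 1 _ _ fun x _ => by rw [abs_le]; constructor <;> linarith [h0 x, h1 x]
    have : ∫ η in (-r)..r, ρ' η ≤ ∫ η in (-r)..r, (1 : ℝ) :=
      intervalIntegral.integral_mono_on hrr hi intervalIntegrable_const fun x _ => h1 x
    simp at this
    linarith
  rw [Real.sqrt_le_left (by nlinarith)]
  calc _ ≤ _ := key
    _ = _ := by ring

end Pool.Agent.Helper61.FU
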